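import Mathlib

/-! A concave perturbation of a Hilbert norm. -/

set_option autoImplicit false

namespace Pool.Agent.V11102.Equi

open Filter Topology
open scoped RealInnerProductSpace

variable {H : Type*} [NormedAddCommGroup H] [InnerProductSpace ℝ H]

/-- `P` is an orthogonal projection. -/
structure IsPr (P : H →L[ℝ] H) : Prop where
  sym : ∀ x y, ⟪P x, y⟫ = ⟪x, P y⟫
  idem : ∀ x, P (P x) = P x

theorem IsPr.normsq {P : H →L[ℝ] H} (h : IsPr P) (x : H) : ‖P x‖ ^ 2 = ⟪x, P x⟫ := by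
  rw [← real_inner_self_eq_norm_sq, h.sym, h.idem]

theorem IsPr.inner {P : H →L[ℝ] H} (h : IsPr P) (x y : H) : ⟪P x, P y⟫ = ⟪x, P y⟫ := by
  rw [h.sym, h.idem]

theorem IsPr.pyth {P : H →L[ℝ] H} (h : IsPr P) (x : H) :
    ‖x‖ ^ 2 = ‖P x‖ ^ 2 + ‖x - P x‖ ^ 2 := by
  rw [norm_sub_sq_real, h.normsq]; ring

theorem IsPr.norm_le {P : H →L[ℝ] H} (h : IsPr P) (x : H) : ‖P x‖ ≤ ‖x‖ := by
  apply (sq_le_sq₀ (norm_nonneg _) (norm_nonneg _)).mp
  have := h.pyth x
  have := sq_nonneg ‖x - P x‖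
  linarith

theorem IsPr.norm_sub_le {P : H →L[ℝ] H} (h : IsPr P) (x : H) : ‖x - P x‖ ≤ ‖x‖ := by
  apply (sq_le_sq₀ (norm_nonneg _) (norm_nonneg _)).mp
  have := h.pyth x
  have := sq_nonneg ‖P x‖
  linarith

theorem IsPr.id : IsPr (ContinuousLinearMap.id ℝ H) := ⟨fun _ _ => rfl, fun _ => rfl⟩

theorem IsPr.compl {P : H →L[ℝ] H} (h : IsPr P) : IsPr (ContinuousLinearMap.id ℝ H - P) := by
  refine ⟨fun x y => ?_, fun x => ?_⟩
  · show ⟪x - P x, y⟫ = ⟪x, y - P y⟫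
    rw [inner_sub_left, inner_sub_right, h.sym]
  · show x - P x - P (x - P x) = x - P x
    rw [map_sub, h.idem]; abel

variable {ι : Type*} (w : ι → ℝ) (P : ι → H →L[ℝ] H)

/-- the perturbed quadratic function -/
noncomputable def Qf (z : H) : ℝ := ‖z‖ ^ 2 + ∑' i, w i * (‖P i z‖ * ‖z - P i z‖)

/-- the new norm -/
noncomputable def Nf (z : H) : ℝ := Real.sqrt (Qf w P z)

section norm
variable {w P} (hP : ∀ i, IsPr (P i)) (hw : ∀ i, 0 < w i) (hs : Summable w)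
  (hW : ∑' i, w i ≤ 1)
include hP hw hs

omit hw hs in
theorem G_le (i : ι) (z : H) : ‖P i z‖ * ‖z - P i z‖ ≤ ‖z‖ ^ 2 := by
  rw [sq]
  exact mul_le_mul ((hP i).norm_le z) ((hP i).norm_sub_le z) (norm_nonneg _) (norm_nonneg _)

omit hs in
theorem G_nonneg (i : ι) (z : H) : 0 ≤ w i * (‖P i z‖ * ‖z - P i z‖) :=
  mul_nonneg (hw i).le (by positivity)

theorem summable_G (z : H) : Summable fun i => w i * (‖P i z‖ * ‖z - P i z‖) :=
  Summable.of_nonneg_of_le (G_nonneg hP hw · z)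
    (fun i => mul_le_mul_of_nonneg_left (G_le hP i z) (hw i).le) (hs.mul_right (‖z‖ ^ 2))

omit hs in
theorem Q_ge (z : H) : ‖z‖ ^ 2 ≤ Qf w P z := by
  unfold Qf
  have : 0 ≤ ∑' i, w i * (‖P i z‖ * ‖z - P i z‖) := tsum_nonneg (G_nonneg hP hw · z)
  linarith

theorem Q_le (z : H) : Qf w P z ≤ (1 + ∑' i, w i) * ‖z‖ ^ 2 := by
  unfold Qf
  have h1 : ∑' i, w i * (‖P i z‖ * ‖z - P i z‖) ≤ ∑' i, w i * ‖z‖ ^ 2 :=
    (summable_G hP hw hs z).tsum_le_tsum
      (fun i => mul_le_mul_of_nonneg_left (G_le hP i z) (hw i).le) (hs.mul_right (‖z‖ ^ 2))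
  rw [tsum_mul_right] at h1
  linarith

omit hs in
theorem Q_nonneg (z : H) : 0 ≤ Qf w P z := (sq_nonneg _).trans (Q_ge hP hw z)

omit hP hw hs in
theorem Q_smul (c : ℝ) (z : H) : Qf w P (c • z) = c ^ 2 * Qf w P z := by
  unfold Qf
  rw [mul_add, ← tsum_mul_left, norm_smul, mul_pow, Real.norm_eq_abs, sq_abs]
  congr 1
  apply tsum_congr
  intro i
  rw [map_smul, ← smul_sub, norm_smul, norm_smul, Real.norm_eq_abs]
  have : |c| * |c| = c ^ 2 := by rw [← sq, sq_abs]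
  calc w i * (|c| * ‖P i z‖ * (|c| * ‖z - P i z‖)) =
      (|c| * |c|) * (w i * (‖P i z‖ * ‖z - P i z‖)) := by ring
    _ = _ := by rw [this]

omit hP hw hs in
theorem qineq (a b a' b' l : ℝ) (h0 : 0 < l) (h1 : l < 1) :
    (a + a') ^ 2 + (b + b') ^ 2 + (a + a') * (b + b') ≤
      (a ^ 2 + b ^ 2 + a * b) / l + (a' ^ 2 + b' ^ 2 + a' * b') / (1 - l) := by
  have h2 : 0 < 1 - l := by linarith
  rw [div_add_div _ _ h0.ne' h2.ne', le_div_iff₀ (mul_pos h0 h2)]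
  have h3 : 0 ≤ ((1 - l) * a - l * a') ^ 2 + ((1 - l) * b - l * b') ^ 2 +
      ((1 - l) * a - l * a') * ((1 - l) * b - l * b') := by
    nlinarith [sq_nonneg (((1 - l) * a - l * a') + ((1 - l) * b - l * b')),
      sq_nonneg ((1 - l) * a - l * a'), sq_nonneg ((1 - l) * b - l * b')]
  nlinarith [h3]

omit hP hw hs in
theorem sqineq (x y : H) (l : ℝ) (h0 : 0 < l) (h1 : l < 1) :
    ‖x + y‖ ^ 2 ≤ ‖x‖ ^ 2 / l + ‖y‖ ^ 2 / (1 - l) := by
  have h2 : 0 < 1 - l := by linarith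
  have h3 : ‖x + y‖ ^ 2 ≤ (‖x‖ + ‖y‖) ^ 2 := by
    have := norm_add_le x y
    exact pow_le_pow_left₀ (norm_nonneg _) this 2
  refine h3.trans ?_
  rw [div_add_div _ _ h0.ne' h2.ne', le_div_iff₀ (mul_pos h0 h2)]
  nlinarith [sq_nonneg ((1 - l) * ‖x‖ - l * ‖y‖)]

omit hw hs in
theorem Gineq (i : ι) (x y : H) (l : ℝ) (h0 : 0 < l) (h1 : l < 1) :
    ‖x + y‖ ^ 2 + ‖P i (x + y)‖ * ‖(x + y) - P i (x + y)‖ ≤
      (‖x‖ ^ 2 + ‖P i x‖ * ‖x - P i x‖) / l + (‖y‖ ^ 2 + ‖P i y‖ * ‖y - P i y‖) / (1 - l) := by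
  have h3 : ‖P i (x + y)‖ ≤ ‖P i x‖ + ‖P i y‖ := by rw [map_add]; exact norm_add_le _ _
  have h4 : ‖(x + y) - P i (x + y)‖ ≤ ‖x - P i x‖ + ‖y - P i y‖ := by
    have : (x + y) - P i (x + y) = (x - P i x) + (y - P i y) := by rw [map_add]; abel
    rw [this]; exact norm_add_le _ _
  have h5 := qineq ‖P i x‖ ‖x - P i x‖ ‖P i y‖ ‖y - P i y‖ l h0 h1
  rw [(hP i).pyth (x + y), (hP i).pyth x, (hP i).pyth y]
  have h6 : ‖P i (x + y)‖ ^ 2 ≤ (‖P i x‖ + ‖P i y‖) ^ 2 := pow_le_pow_left₀ (norm_nonneg _) h3 2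
  have h7 : ‖(x + y) - P i (x + y)‖ ^ 2 ≤ (‖x - P i x‖ + ‖y - P i y‖) ^ 2 :=
    pow_le_pow_left₀ (norm_nonneg _) h4 2
  have h8 : ‖P i (x + y)‖ * ‖(x + y) - P i (x + y)‖ ≤
      (‖P i x‖ + ‖P i y‖) * (‖x - P i x‖ + ‖y - P i y‖) :=
    mul_le_mul h3 h4 (norm_nonneg _) (by positivity)
  linarith

include hW in
theorem Q_conv (x y : H) (l : ℝ) (h0 : 0 < l) (h1 : l < 1) :
    Qf w P (x + y) ≤ Qf w P x / l + Qf w P y / (1 - l) := by
  have h2 : 0 < 1 - l := by linarith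
  have e : ∀ z : H, Qf w P z = (1 - ∑' i, w i) * ‖z‖ ^ 2 +
      ∑' i, w i * (‖z‖ ^ 2 + ‖P i z‖ * ‖z - P i z‖) := by
    intro z
    have : ∑' i, w i * (‖z‖ ^ 2 + ‖P i z‖ * ‖z - P i z‖) =
        (∑' i, w i) * ‖z‖ ^ 2 + ∑' i, w i * (‖P i z‖ * ‖z - P i z‖) := by
      rw [← tsum_mul_right, ← (hs.mul_right _).tsum_add (summable_G hP hw hs z)]
      apply tsum_congr
      intro i
      ring
    rw [this]
    unfold Qf
    ring
  have hsum : ∀ z : H, Summable fun i => w i * (‖z‖ ^ 2 + ‖P i z‖ * ‖z - P i z‖) := by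
    intro z
    have := (hs.mul_right (‖z‖ ^ 2)).add (summable_G hP hw hs z)
    refine this.congr ?_
    intro i
    ring
  have h3 : ∑' i, w i * (‖x + y‖ ^ 2 + ‖P i (x + y)‖ * ‖(x + y) - P i (x + y)‖) ≤
      (∑' i, w i * (‖x‖ ^ 2 + ‖P i x‖ * ‖x - P i x‖)) / l +
      (∑' i, w i * (‖y‖ ^ 2 + ‖P i y‖ * ‖y - P i y‖)) / (1 - l) := by
    rw [← tsum_div_const, ← tsum_div_const,
      ← ((hsum x).div_const l).tsum_add ((hsum y).div_const (1 - l))]
    apply (hsum (x + y)).tsum_le_tsum _ (((hsum x).div_const l).add ((hsum y).div_const (1 - l)))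
    intro i
    have := mul_le_mul_of_nonneg_left (Gineq hP i x y l h0 h1) (hw i).le
    refine this.trans (le_of_eq ?_)
    ring
  have h4 := mul_le_mul_of_nonneg_left (sqineq x y l h0 h1)
    (show 0 ≤ 1 - ∑' i, w i by linarith)
  rw [e x, e y, e (x + y), add_div, add_div]
  have h5 : (1 - ∑' i, w i) * (‖x‖ ^ 2 / l + ‖y‖ ^ 2 / (1 - l)) =
      (1 - ∑' i, w i) * ‖x‖ ^ 2 / l + (1 - ∑' i, w i) * ‖y‖ ^ 2 / (1 - l) := by ring
  linarith

omit hs in
theorem N_ge (z : H) : ‖z‖ ≤ Nf w P z := by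
  unfold Nf
  apply Real.le_sqrt_of_sq_le
  exact Q_ge hP hw z

theorem N_le (z : H) : Nf w P z ≤ Real.sqrt (1 + ∑' i, w i) * ‖z‖ := by
  unfold Nf
  have h1 := Q_le hP hw hs z
  calc Real.sqrt (Qf w P z) ≤ Real.sqrt ((1 + ∑' i, w i) * ‖z‖ ^ 2) := Real.sqrt_le_sqrt h1
    _ = _ := by
      rw [Real.sqrt_mul' _ (sq_nonneg _), Real.sqrt_sq (norm_nonneg _)]

omit hP hw hs in
theorem N_smul (c : ℝ) (z : H) : Nf w P (c • z) = ‖c‖ * Nf w P z := by
  unfold Nf
  rw [Q_smul, Real.sqrt_mul (sq_nonneg _), Real.sqrt_sq_eq_abs, Real.norm_eq_abs]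

include hW in
theorem N_add (x y : H) : Nf w P (x + y) ≤ Nf w P x + Nf w P y := by
  rcases eq_or_ne x 0 with rfl | hx
  · have : 0 ≤ Nf w P (0 : H) := Real.sqrt_nonneg _
    rw [zero_add]; linarith
  rcases eq_or_ne y 0 with rfl | hy
  · have : 0 ≤ Nf w P (0 : H) := Real.sqrt_nonneg _
    rw [add_zero]; linarith
  have hx0 : 0 < Nf w P x := (norm_pos_iff.mpr hx).trans_le (N_ge hP hw x)
  have hy0 : 0 < Nf w P y := (norm_pos_iff.mpr hy).trans_le (N_ge hP hw y)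
  set s := Nf w P x with hsdef
  set r := Nf w P y with hrdef
  have hsx : Qf w P x = s ^ 2 := by
    rw [hsdef]; unfold Nf; rw [Real.sq_sqrt (Q_nonneg hP hw x)]
  have hry : Qf w P y = r ^ 2 := by
    rw [hrdef]; unfold Nf; rw [Real.sq_sqrt (Q_nonneg hP hw y)]
  have h1 := Q_conv hP hw hs hW x y (s / (s + r)) (by positivity)
    ((div_lt_one (by positivity)).mpr (by linarith))
  have h2 : 1 - s / (s + r) = r / (s + r) := by field_simp; ring
  rw [h2, hsx, hry] at h1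
  have h3 : s ^ 2 / (s / (s + r)) + r ^ 2 / (r / (s + r)) = (s + r) ^ 2 := by
    field_simp
  rw [h3] at h1
  unfold Nf
  exact Real.sqrt_le_iff.mpr ⟨by positivity, h1⟩

end norm

/-- the functional of limits -/
noncomputable def Phi (T : ℝ) (p q : ι → ℝ) : ℝ :=
  T + ∑' i, w i * (Real.sqrt (p i) * Real.sqrt (q i))

theorem Q_eq_Phi (z : H) : Qf w P z = Phi w (‖z‖ ^ 2) (fun i => ‖P i z‖ ^ 2)
    (fun i => ‖z - P i z‖ ^ 2) := by
  unfold Qf Phi
  congr 1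
  apply tsum_congr
  intro i
  rw [Real.sqrt_sq (norm_nonneg _), Real.sqrt_sq (norm_nonneg _)]

variable {w P}

theorem Phi_tendsto {S : Type*} {l : Filter S} (hw : ∀ i, 0 < w i) (hs : Summable w)
    {T : S → ℝ} {p q : S → ι → ℝ} {T0 : ℝ} {p0 q0 : ι → ℝ} {C : ℝ}
    (hT : Tendsto T l (𝓝 T0)) (hp : ∀ i, Tendsto (fun s => p s i) l (𝓝 (p0 i)))
    (hq : ∀ i, Tendsto (fun s => q s i) l (𝓝 (q0 i))) (hpC : ∀ s i, p s i ≤ C)
    (hqC : ∀ s i, q s i ≤ C) :
    Tendsto (fun s => Phi w (T s) (p s) (q s)) l (𝓝 (Phi w T0 p0 q0)) := by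
  unfold Phi
  apply hT.add
  apply tendsto_tsum_of_dominated_convergence
    (hs.mul_right (Real.sqrt C * Real.sqrt C))
  · intro i
    apply Tendsto.const_mul
    exact ((Real.continuous_sqrt.tendsto _).comp (hp i)).mul
      ((Real.continuous_sqrt.tendsto _).comp (hq i))
  · apply Eventually.of_forall
    intro s i
    rw [Real.norm_eq_abs, abs_of_nonneg (mul_nonneg (hw i).le (by positivity))]
    apply mul_le_mul_of_nonneg_left _ (hw i).le
    exact mul_le_mul (Real.sqrt_le_sqrt (hpC s i)) (Real.sqrt_le_sqrt (hqC s i))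
      (Real.sqrt_nonneg _) (Real.sqrt_nonneg _)

/-! ### limits along ultrafilters -/

theorem real_lim {S : Type*} (U : Ultrafilter S) {f : S → ℝ} {C : ℝ} (h : ∀ s, |f s| ≤ C) :
    ∃ r, Tendsto f U (𝓝 r) := by
  have h1 : (U.map f : Filter ℝ) ≤ 𝓟 (Set.Icc (-C) C) := by
    rw [le_principal_iff]
    show f ⁻¹' Set.Icc (-C) C ∈ (U : Filter S)
    have h0 : f ⁻¹' Set.Icc (-C) C = Set.univ := Set.eq_univ_of_forall (fun n => abs_le.mp (h n))
    rw [h0]
    exact univ_mem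
  obtain ⟨a, -, ha⟩ := isCompact_Icc.ultrafilter_le_nhds _ h1
  exact ⟨a, ha⟩

theorem weak_lim [CompleteSpace H] {S : Type*} (U : Ultrafilter S) {x : S → H} {C : ℝ}
    (h : ∀ s, ‖x s‖ ≤ C) : ∃ a : H, ∀ y, Tendsto (fun s => ⟪x s, y⟫) U (𝓝 ⟪a, y⟫) := by
  have hex : ∀ y, ∃ r, Tendsto (fun s => ⟪x s, y⟫) U (𝓝 r) := by
    intro y
    apply real_lim U (C := C * ‖y‖)
    intro s
    exact (abs_real_inner_le_norm _ _).trans (mul_le_mul_of_nonneg_right (h s) (norm_nonneg _))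
  choose L hL using hex
  let f : H →ₗ[ℝ] ℝ :=
    { toFun := L
      map_add' := by
        intro y z
        have h1 := (hL y).add (hL z)
        have h2 := hL (y + z)
        simp only [inner_add_right] at h2
        exact tendsto_nhds_unique h2 h1
      map_smul' := by
        intro c y
        have h1 := (hL y).const_mul c
        have h2 := hL (c • y)
        simp only [inner_smul_right] at h2
        exact tendsto_nhds_unique h2 h1 }
  let g : StrongDual ℝ H := f.mkContinuous C (by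
    intro y
    have h1 := (hL y).abs
    apply le_of_tendsto h1
    apply Eventually.of_forall
    intro s
    exact (abs_real_inner_le_norm _ _).trans (mul_le_mul_of_nonneg_right (h s) (norm_nonneg _)))
  refine ⟨(InnerProductSpace.toDual ℝ H).symm g, fun y => ?_⟩
  rw [InnerProductSpace.toDual_symm_apply]
  exact hL y

/-- limits of a family along an ultrafilter -/
structure Lim (P : ι → H →L[ℝ] H) {S : Type*} (x : S → H) (U : Ultrafilter S) (a : H) (t : ℝ)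
    (β : ι → ℝ) : Prop where
  weak : ∀ y, Tendsto (fun s => ⟪x s, y⟫) U (𝓝 ⟪a, y⟫)
  tot : Tendsto (fun s => ‖x s - a‖ ^ 2) U (𝓝 t)
  par : ∀ i, Tendsto (fun s => ‖P i (x s - a)‖ ^ 2) U (𝓝 (β i))

theorem exists_lim [CompleteSpace H] (hP : ∀ i, IsPr (P i)) {S : Type*} (U : Ultrafilter S)
    {x : S → H} {C : ℝ} (h : ∀ s, ‖x s‖ ≤ C) : ∃ a t β, Lim P x U a t β := by
  obtain ⟨a, ha⟩ := weak_lim U h
  have hb : ∀ s, ‖x s - a‖ ^ 2 ≤ (C + ‖a‖) ^ 2 := by
    intro s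
    apply pow_le_pow_left₀ (norm_nonneg _)
    exact (norm_sub_le _ _).trans (by linarith [h s])
  obtain ⟨t, ht⟩ := real_lim U (f := fun s => ‖x s - a‖ ^ 2) (C := (C + ‖a‖) ^ 2) (by
    intro s
    rw [abs_of_nonneg (sq_nonneg _)]
    exact hb s)
  have hex : ∀ i, ∃ r, Tendsto (fun s => ‖P i (x s - a)‖ ^ 2) U (𝓝 r) := by
    intro i
    apply real_lim U (C := (C + ‖a‖) ^ 2)
    intro s
    rw [abs_of_nonneg (sq_nonneg _)]
    exact (pow_le_pow_left₀ (norm_nonneg _) ((hP i).norm_le _) 2).trans (hb s)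
  choose β hβ using hex
  exact ⟨a, t, β, ha, ht, hβ⟩

theorem lim_shift {S : Type*} {x : S → H} {U : Ultrafilter S} {a : H} {R : H →L[ℝ] H}
    (hR : IsPr R) (ha : ∀ y, Tendsto (fun s => ⟪x s, y⟫) U (𝓝 ⟪a, y⟫)) {b : ℝ}
    (hb : Tendsto (fun s => ‖R (x s - a)‖ ^ 2) U (𝓝 b)) (y : H) :
    Tendsto (fun s => ‖R (x s - y)‖ ^ 2) U (𝓝 (b + ‖R (a - y)‖ ^ 2)) := by
  have h1 : ∀ s, ‖R (x s - y)‖ ^ 2 = ‖R (x s - a)‖ ^ 2 +
      2 * (⟪x s, R (a - y)⟫ - ⟪a, R (a - y)⟫) + ‖R (a - y)‖ ^ 2 := by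
    intro s
    have e : R (x s - y) = R (x s - a) + R (a - y) := by rw [← map_add]; congr 1; abel
    rw [e, norm_add_sq_real, hR.inner, inner_sub_left]
  have h2 : Tendsto (fun s => ‖R (x s - a)‖ ^ 2 +
      2 * (⟪x s, R (a - y)⟫ - ⟪a, R (a - y)⟫) + ‖R (a - y)‖ ^ 2) U
      (𝓝 (b + 2 * (⟪a, R (a - y)⟫ - ⟪a, R (a - y)⟫) + ‖R (a - y)‖ ^ 2)) :=
    (hb.add (((ha _).sub_const _).const_mul 2)).add_const _
  rw [sub_self, mul_zero, add_zero] at h2
  exact h2.congr (fun s => (h1 s).symm)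

section lims
variable {S : Type*} {x : S → H} {U V : Ultrafilter S} {a a' : H} {t t' : ℝ} {β β' : ι → ℝ}

theorem Lim.co (hP : ∀ i, IsPr (P i)) (h : Lim P x U a t β) (i : ι) :
    Tendsto (fun s => ‖(ContinuousLinearMap.id ℝ H - P i) (x s - a)‖ ^ 2) U (𝓝 (t - β i)) := by
  refine (h.tot.sub (h.par i)).congr (fun s => ?_)
  have := (hP i).pyth (x s - a)
  show _ = ‖(x s - a) - P i (x s - a)‖ ^ 2
  linarith

theorem Lim.nonneg (h : Lim P x U a t β) (i : ι) : 0 ≤ β i :=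
  ge_of_tendsto' (h.par i) (fun _ => sq_nonneg _)

theorem Lim.le (hP : ∀ i, IsPr (P i)) (h : Lim P x U a t β) (i : ι) : 0 ≤ t - β i :=
  ge_of_tendsto' (h.co hP i) (fun _ => sq_nonneg _)

theorem Lim.t_nonneg (h : Lim P x U a t β) : 0 ≤ t :=
  ge_of_tendsto' h.tot (fun _ => sq_nonneg _)

theorem stepA (hP : ∀ i, IsPr (P i)) (hw : ∀ i, 0 < w i) (hs : Summable w) {C D : ℝ}
    (hC : ∀ s, ‖x s‖ ≤ C) (hD : ∀ s s', s ≠ s' → Qf w P (x s - x s') = D)
    (hU : (U : Filter S) ≤ cofinite) (h : Lim P x U a t β) (s' : S) :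
    Phi w (t + ‖x s' - a‖ ^ 2) (fun i => β i + ‖P i (x s' - a)‖ ^ 2)
      (fun i => (t - β i) + ‖(ContinuousLinearMap.id ℝ H - P i) (x s' - a)‖ ^ 2) = D := by
  have hbd : ∀ s, ‖x s - x s'‖ ^ 2 ≤ (C + C) ^ 2 := by
    intro s
    apply pow_le_pow_left₀ (norm_nonneg _)
    exact (norm_sub_le _ _).trans (add_le_add (hC s) (hC s'))
  have h1 : Tendsto (fun s => Qf w P (x s - x s')) U
      (𝓝 (Phi w (t + ‖a - x s'‖ ^ 2) (fun i => β i + ‖P i (a - x s')‖ ^ 2)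
      (fun i => (t - β i) + ‖(ContinuousLinearMap.id ℝ H - P i) (a - x s')‖ ^ 2))) := by
    simp only [Q_eq_Phi w P]
    apply Phi_tendsto hw hs (C := (C + C) ^ 2)
    · exact lim_shift IsPr.id h.weak h.tot (x s')
    · intro i
      exact lim_shift (hP i) h.weak (h.par i) (x s')
    · intro i
      exact lim_shift (hP i).compl h.weak (h.co hP i) (x s')
    · intro s i
      exact (pow_le_pow_left₀ (norm_nonneg _) ((hP i).norm_le _) 2).trans (hbd s)
    · intro s i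
      exact (pow_le_pow_left₀ (norm_nonneg _) ((hP i).norm_sub_le _) 2).trans (hbd s)
  have h2 : ∀ᶠ s in (U : Filter S), s ≠ s' := by
    apply hU
    exact (Set.finite_singleton s').compl_mem_cofinite
  have h3 : Tendsto (fun s => Qf w P (x s - x s')) U (𝓝 D) :=
    tendsto_const_nhds.congr' (h2.mono fun s hs' => (hD s s' hs').symm)
  have h4 := tendsto_nhds_unique h3 h1
  rw [h4]
  have e : ∀ (R : H →L[ℝ] H), ‖R (a - x s')‖ = ‖R (x s' - a)‖ := by
    intro R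
    rw [← norm_neg, ← map_neg, neg_sub]
  have e1 : ‖a - x s'‖ = ‖x s' - a‖ := norm_sub_rev _ _
  simp only [e, e1]

theorem stepB (hP : ∀ i, IsPr (P i)) (hw : ∀ i, 0 < w i) (hs : Summable w) {C D : ℝ}
    (hC : ∀ s, ‖x s‖ ≤ C) (hD : ∀ s s', s ≠ s' → Qf w P (x s - x s') = D)
    (hU : (U : Filter S) ≤ cofinite) (h : Lim P x U a t β) (h' : Lim P x V a' t' β') :
    Phi w (t + (t' + ‖a' - a‖ ^ 2)) (fun i => β i + (β' i + ‖P i (a' - a)‖ ^ 2))
      (fun i => (t - β i) + ((t' - β' i) +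
        ‖(ContinuousLinearMap.id ℝ H - P i) (a' - a)‖ ^ 2)) = D := by
  have hbd : ∀ s, ‖x s - a‖ ^ 2 ≤ (C + ‖a‖) ^ 2 := by
    intro s
    apply pow_le_pow_left₀ (norm_nonneg _)
    exact (norm_sub_le _ _).trans (add_le_add (hC s) le_rfl)
  have h1 : Tendsto (fun s' => Phi w (t + ‖x s' - a‖ ^ 2) (fun i => β i + ‖P i (x s' - a)‖ ^ 2)
      (fun i => (t - β i) + ‖(ContinuousLinearMap.id ℝ H - P i) (x s' - a)‖ ^ 2)) V
      (𝓝 (Phi w (t + (t' + ‖a' - a‖ ^ 2)) (fun i => β i + (β' i + ‖P i (a' - a)‖ ^ 2))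
      (fun i => (t - β i) + ((t' - β' i) +
        ‖(ContinuousLinearMap.id ℝ H - P i) (a' - a)‖ ^ 2)))) := by
    apply Phi_tendsto hw hs (C := t + (C + ‖a‖) ^ 2)
    · exact (lim_shift IsPr.id h'.weak h'.tot a).const_add t
    · intro i
      exact (lim_shift (hP i) h'.weak (h'.par i) a).const_add _
    · intro i
      exact (lim_shift (hP i).compl h'.weak (h'.co hP i) a).const_add _
    · intro s i
      have h2 := (pow_le_pow_left₀ (norm_nonneg _) ((hP i).norm_le (x s - a)) 2).trans (hbd s)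
      have h3 := h.le hP i
      linarith
    · intro s i
      have h2 := (pow_le_pow_left₀ (norm_nonneg _) ((hP i).norm_sub_le (x s - a)) 2).trans (hbd s)
      have h3 := h.nonneg i
      have h4 : ‖(ContinuousLinearMap.id ℝ H - P i) (x s - a)‖ ^ 2 =
        ‖(x s - a) - P i (x s - a)‖ ^ 2 := rfl
      rw [h4]
      linarith
  have h2 : (fun s' => Phi w (t + ‖x s' - a‖ ^ 2) (fun i => β i + ‖P i (x s' - a)‖ ^ 2)
      (fun i => (t - β i) + ‖(ContinuousLinearMap.id ℝ H - P i) (x s' - a)‖ ^ 2)) =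
      fun _ => D := by
    funext s'
    exact stepA hP hw hs hC hD hU h s'
  rw [h2] at h1
  exact (tendsto_nhds_unique tendsto_const_nhds h1).symm

theorem stepC (hP : ∀ i, IsPr (P i)) (hw : ∀ i, 0 < w i) (hs : Summable w) {C D : ℝ}
    (hC : ∀ s, ‖x s‖ ≤ C) (hD : ∀ s s', s ≠ s' → Qf w P (x s - x s') = D)
    (hU : (U : Filter S) ≤ cofinite) (h : Lim P x U a t β) :
    2 * t + 2 * ∑' i, w i * (Real.sqrt (β i) * Real.sqrt (t - β i)) = D := by
  have h1 := stepB hP hw hs hC hD hU h h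
  rw [← h1]
  unfold Phi
  have e1 : t + (t + ‖a - a‖ ^ 2) = 2 * t := by simp; ring
  rw [e1, ← tsum_mul_left]
  congr 1
  apply tsum_congr
  intro i
  beta_reduce
  have e2 : β i + (β i + ‖P i (a - a)‖ ^ 2) = 2 * β i := by simp; ring
  have e3 : (t - β i) + ((t - β i) + ‖(ContinuousLinearMap.id ℝ H - P i) (a - a)‖ ^ 2) =
    2 * (t - β i) := by simp; ring
  rw [e2, e3, Real.sqrt_mul (by norm_num), Real.sqrt_mul (by norm_num)]
  have e4 : Real.sqrt 2 * Real.sqrt 2 = 2 := Real.mul_self_sqrt (by norm_num)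
  calc 2 * (w i * (Real.sqrt (β i) * Real.sqrt (t - β i))) =
      (Real.sqrt 2 * Real.sqrt 2) * (w i * (Real.sqrt (β i) * Real.sqrt (t - β i))) := by rw [e4]
    _ = _ := by ring

end lims

theorem superadd {p q p' q' m n : ℝ} (hp : 0 ≤ p) (hq : 0 ≤ q) (hp' : 0 ≤ p') (hq' : 0 ≤ q')
    (hm : 0 ≤ m) (hn : 0 ≤ n) :
    Real.sqrt p * Real.sqrt q + Real.sqrt p' * Real.sqrt q' ≤
      Real.sqrt (p + (p' + m)) * Real.sqrt (q + (q' + n)) := by
  rw [← Real.sqrt_mul (show 0 ≤ p + (p' + m) by positivity)]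
  apply Real.le_sqrt_of_sq_le
  have h1 := Real.sq_sqrt hp
  have h2 := Real.sq_sqrt hq
  have h3 := Real.sq_sqrt hp'
  have h4 := Real.sq_sqrt hq'
  set A := Real.sqrt p
  set B := Real.sqrt q
  set A' := Real.sqrt p'
  set B' := Real.sqrt q'
  have h5 : (A * B + A' * B') ^ 2 ≤ (A ^ 2 + A' ^ 2) * (B ^ 2 + B' ^ 2) := by
    nlinarith [sq_nonneg (A * B' - A' * B)]
  rw [h1, h2, h3, h4] at h5
  refine h5.trans ?_
  apply mul_le_mul (by linarith) (by linarith) (by positivity) (by positivity)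

theorem unique {S : Type*} {x : S → H} {U V : Ultrafilter S} {a a' : H} {t t' : ℝ}
    {β β' : ι → ℝ} (hP : ∀ i, IsPr (P i)) (hw : ∀ i, 0 < w i) (hs : Summable w) {C D : ℝ}
    (hC : ∀ s, ‖x s‖ ≤ C) (hD : ∀ s s', s ≠ s' → Qf w P (x s - x s') = D) (hD0 : 0 < D)
    (hU : (U : Filter S) ≤ cofinite) (hV : (V : Filter S) ≤ cofinite)
    (h : Lim P x U a t β) (h' : Lim P x V a' t' β') : 0 < t ∧ a = a' ∧ t = t' ∧ β = β' := by
  have e1 := stepC hP hw hs hC hD hU h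
  have e2 := stepC hP hw hs hC hD hV h'
  have e3 := stepB hP hw hs hC hD hU h h'
  have hβ := h.nonneg
  have hβ' := h'.nonneg
  have hγ := h.le hP
  have hγ' := h'.le hP
  have ht := h.t_nonneg
  have ht' := h'.t_nonneg
  -- summability
  have sum_of : ∀ (p q : ι → ℝ) (K : ℝ), (∀ i, p i ≤ K) → (∀ i, q i ≤ K) →
      Summable fun i => w i * (Real.sqrt (p i) * Real.sqrt (q i)) := by
    intro p q K hp hq
    apply Summable.of_nonneg_of_le _ _ (hs.mul_right (Real.sqrt K * Real.sqrt K))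
    · intro i; exact mul_nonneg (hw i).le (by positivity)
    · intro i
      apply mul_le_mul_of_nonneg_left _ (hw i).le
      exact mul_le_mul (Real.sqrt_le_sqrt (hp i)) (Real.sqrt_le_sqrt (hq i))
        (Real.sqrt_nonneg _) (Real.sqrt_nonneg _)
  have s1 := sum_of β (fun i => t - β i) t (fun i => by linarith [hγ i])
    (fun i => by linarith [hβ i])
  have s2 := sum_of β' (fun i => t' - β' i) t' (fun i => by linarith [hγ' i])
    (fun i => by linarith [hβ' i])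
  have hm : ∀ i, ‖P i (a' - a)‖ ^ 2 ≤ ‖a' - a‖ ^ 2 := fun i =>
    pow_le_pow_left₀ (norm_nonneg _) ((hP i).norm_le _) 2
  have hn : ∀ i, ‖(ContinuousLinearMap.id ℝ H - P i) (a' - a)‖ ^ 2 ≤ ‖a' - a‖ ^ 2 := fun i =>
    pow_le_pow_left₀ (norm_nonneg _) ((hP i).norm_sub_le _) 2
  have s3 := sum_of (fun i => β i + (β' i + ‖P i (a' - a)‖ ^ 2))
    (fun i => (t - β i) + ((t' - β' i) + ‖(ContinuousLinearMap.id ℝ H - P i) (a' - a)‖ ^ 2))
    (t + (t' + ‖a' - a‖ ^ 2)) (fun i => by linarith [hγ i, hγ' i, hm i])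
    (fun i => by linarith [hβ i, hβ' i, hn i])
  unfold Phi at e3
  -- the nonnegative terms
  let g : ι → ℝ := fun i => w i * (Real.sqrt (β i + (β' i + ‖P i (a' - a)‖ ^ 2)) *
    Real.sqrt ((t - β i) + ((t' - β' i) +
      ‖(ContinuousLinearMap.id ℝ H - P i) (a' - a)‖ ^ 2))) -
    (w i * (Real.sqrt (β i) * Real.sqrt (t - β i)) +
      w i * (Real.sqrt (β' i) * Real.sqrt (t' - β' i)))
  have hg0 : ∀ i, 0 ≤ g i := by
    intro i
    have h1 := superadd (hβ i) (hγ i) (hβ' i) (hγ' i) (sq_nonneg ‖P i (a' - a)‖)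
      (sq_nonneg ‖(ContinuousLinearMap.id ℝ H - P i) (a' - a)‖)
    have h2 := mul_le_mul_of_nonneg_left h1 (hw i).le
    show 0 ≤ _ - _
    linarith
  have hgs : HasSum g ((∑' i, w i * (Real.sqrt (β i + (β' i + ‖P i (a' - a)‖ ^ 2)) *
    Real.sqrt ((t - β i) + ((t' - β' i) +
      ‖(ContinuousLinearMap.id ℝ H - P i) (a' - a)‖ ^ 2)))) -
    ((∑' i, w i * (Real.sqrt (β i) * Real.sqrt (t - β i))) +
      ∑' i, w i * (Real.sqrt (β' i) * Real.sqrt (t' - β' i)))) :=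
    s3.hasSum.sub (s1.hasSum.add s2.hasSum)
  have hgn := hgs.nonneg hg0
  have ha0 : ‖a' - a‖ ^ 2 = 0 := by
    have := sq_nonneg ‖a' - a‖
    linarith
  have haa : a' - a = 0 := by
    rw [← norm_eq_zero]
    exact pow_eq_zero_iff (two_ne_zero) |>.mp ha0
  have hg00 : (∑' i, w i * (Real.sqrt (β i + (β' i + ‖P i (a' - a)‖ ^ 2)) *
    Real.sqrt ((t - β i) + ((t' - β' i) +
      ‖(ContinuousLinearMap.id ℝ H - P i) (a' - a)‖ ^ 2)))) -
    ((∑' i, w i * (Real.sqrt (β i) * Real.sqrt (t - β i))) +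
      ∑' i, w i * (Real.sqrt (β' i) * Real.sqrt (t' - β' i))) = 0 := by
    linarith
  rw [hg00] at hgs
  have hgz := (hasSum_zero_iff_of_nonneg hg0).mp hgs
  have hprop : ∀ i, β i * t' = β' i * t := by
    intro i
    have h1 : g i = 0 := congrFun hgz i
    have h2 : Real.sqrt (β i + (β' i + ‖P i (a' - a)‖ ^ 2)) *
      Real.sqrt ((t - β i) + ((t' - β' i) +
      ‖(ContinuousLinearMap.id ℝ H - P i) (a' - a)‖ ^ 2)) =
      Real.sqrt (β i) * Real.sqrt (t - β i) + Real.sqrt (β' i) * Real.sqrt (t' - β' i) := by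
      have h3 : w i * (Real.sqrt (β i + (β' i + ‖P i (a' - a)‖ ^ 2)) *
        Real.sqrt ((t - β i) + ((t' - β' i) +
        ‖(ContinuousLinearMap.id ℝ H - P i) (a' - a)‖ ^ 2))) =
        w i * (Real.sqrt (β i) * Real.sqrt (t - β i) +
          Real.sqrt (β' i) * Real.sqrt (t' - β' i)) := by
        have : g i = _ - _ := rfl
        rw [this] at h1
        linarith
      exact mul_left_cancel₀ (hw i).ne' h3
    rw [haa] at h2
    simp only [map_zero, norm_zero, ne_eq, OfNat.ofNat_ne_zero, not_false_eq_true, zero_pow,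
      add_zero] at h2
    have h4 := congrArg (fun z : ℝ => z ^ 2) h2
    simp only [mul_pow] at h4
    have q1 := Real.sq_sqrt (hβ i)
    have q2 := Real.sq_sqrt (hγ i)
    have q3 := Real.sq_sqrt (hβ' i)
    have q4 := Real.sq_sqrt (hγ' i)
    rw [Real.sq_sqrt (add_nonneg (hβ i) (hβ' i)), Real.sq_sqrt (add_nonneg (hγ i) (hγ' i))] at h4
    set A := Real.sqrt (β i)
    set B := Real.sqrt (t - β i)
    set A' := Real.sqrt (β' i)
    set B' := Real.sqrt (t' - β' i)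
    have h5 : (A * B' - A' * B) ^ 2 = 0 := by
      have : (A * B' - A' * B) ^ 2 = (A ^ 2 + A' ^ 2) * (B ^ 2 + B' ^ 2) -
        (A * B + A' * B') ^ 2 := by ring
      rw [this, q1, q2, q3, q4, h4]; ring
    have h6 : A * B' = A' * B := by
      have := pow_eq_zero_iff (two_ne_zero) |>.mp h5
      linarith
    have h7 : A ^ 2 * B' ^ 2 = A' ^ 2 * B ^ 2 := by
      rw [← mul_pow, h6, mul_pow]
    rw [q1, q2, q3, q4] at h7
    linarith
  have htpos : 0 < t := by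
    rcases ht.lt_or_eq with h1 | h1
    · exact h1
    · exfalso
      have h2 : ∀ i, β i = 0 := fun i => le_antisymm (by linarith [hγ i]) (hβ i)
      have h3 : ∑' i, w i * (Real.sqrt (β i) * Real.sqrt (t - β i)) = 0 := by
        rw [← tsum_zero (α := ℝ) (β := ι)]
        apply tsum_congr
        intro i
        rw [h2 i]; simp
      rw [h3, ← h1] at e1
      linarith
  have hbeta : ∀ i, β' i = t' / t * β i := by
    intro i
    have := hprop i
    field_simp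
    linarith
  have hc0 : 0 ≤ t' / t := by positivity
  have e4 : ∑' i, w i * (Real.sqrt (β' i) * Real.sqrt (t' - β' i)) =
      t' / t * ∑' i, w i * (Real.sqrt (β i) * Real.sqrt (t - β i)) := by
    rw [← tsum_mul_left]
    apply tsum_congr
    intro i
    have h1 : t' - β' i = t' / t * (t - β i) := by
      rw [hbeta i]; field_simp
    rw [h1, hbeta i, Real.sqrt_mul hc0, Real.sqrt_mul hc0]
    have h2 : Real.sqrt (t' / t) * Real.sqrt (t' / t) = t' / t := Real.mul_self_sqrt hc0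
    calc w i * (Real.sqrt (t' / t) * Real.sqrt (β i) * (Real.sqrt (t' / t) *
          Real.sqrt (t - β i))) = (Real.sqrt (t' / t) * Real.sqrt (t' / t)) *
          (w i * (Real.sqrt (β i) * Real.sqrt (t - β i))) := by ring
      _ = _ := by rw [h2]
  have h8 : t' / t * D = D := by
    rw [← e1]
    rw [e4] at e2
    have : 2 * t' = t' / t * (2 * t) := by field_simp
    rw [this] at e2
    linarith
  have h9 : t' / t = 1 := by
    have : (t' / t - 1) * D = 0 := by linarith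
    have := (mul_eq_zero.mp this).resolve_right hD0.ne'
    linarith
  refine ⟨htpos, (sub_eq_zero.mp haa).symm, ?_, ?_⟩
  · rw [div_eq_one_iff_eq htpos.ne'] at h9
    exact h9.symm
  · funext i
    rw [hbeta i, h9, one_mul]

end Pool.Agent.V11102.Equi
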